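import Pool.Agent.Helper75.PX.Stmts6
import Pool.Agent.Helper50.PX.TRZ

/-! The main part of row A4b of the sheet `Pool.Agent.Helper75.PX.Stmts6`. -/

set_option autoImplicit false

universe u

open Module Polynomial

namespace Pool.Agent.Helper25.PX

open Pool.Agent.Helper75.PX

/-- the dimension of `K(i)` -/
theorem A4bM_dim (K D : Type u) [Field K] [DivisionRing D]
    [Algebra K D] [FiniteDimensional K D] (i : D) (n : ℕ) (h : (minpoly K i).natDegree = n) :
    finrank K (trz_E K i) = n := by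
  refine le_antisymm (h ▸ trz_finrank i) ?_
  have hli : LinearIndependent K (fun n : Fin (minpoly K i).natDegree => i ^ (n : ℕ)) :=
    linearIndependent_pow i
  let g : Fin (minpoly K i).natDegree → trz_E K i := fun n => ⟨i ^ (n : ℕ), X ^ (n : ℕ), by simp⟩
  have hg : LinearIndependent K g := by
    have : (fun n : Fin (minpoly K i).natDegree => i ^ (n : ℕ)) = (trz_E K i).subtype ∘ g := rfl
    rw [this] at hli
    exact LinearIndependent.of_comp _ hli
  have h1 := hg.fintype_card_le_finrank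
  rw [Fintype.card_fin, h] at h1
  exact h1

/-- the conclusion of A4b from an element of degree two -/
def A4bQ : Prop := ∀ (K D : Type u) [Field K] [DivisionRing D] [Algebra K D]
  [Algebra.IsCentral K D], finrank K D = 16 → (2 : K) = 0 → ∀ v : D,
  (∀ k : K, v ≠ algebraMap K D k) → (minpoly K v).natDegree = 2 →
  ∃ (α : D) (a : K), α * α = α + algebraMap K D a ∧ ∀ k : K, α ≠ algebraMap K D k

theorem A4b_main (h0 : ST_EE.{u}) (h1 : ST_MPD.{u}) (h2 : ST_MDV.{u}) (h5 : ST_MIN.{u})
    (hQ : A4bQ.{u}) : ST_A4b.{u} := by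
  intro K D _ _ _ _ hd h20
  have : FiniteDimensional K D := Module.finite_of_finrank_pos (by rw [hd]; norm_num)
  by_cases hx2 : ∃ v : D, (minpoly K v).natDegree = 2
  · obtain ⟨v, hv⟩ := hx2
    refine hQ K D hd h20 v ?_ hv
    intro k hk
    have h3 : (minpoly K v).natDegree = 1 := by
      rw [minpoly.natDegree_eq_one_iff]
      exact ⟨k, hk.symm⟩
    omega
  exfalso
  push Not at hx2
  obtain ⟨τ, e, ⟨x1, hx1⟩, -, -, hτ, -⟩ := h0 K D hd h20
  -- an element outside the field
  obtain ⟨y, hy⟩ : ∃ x : D, ∀ k : K, x ≠ algebraMap K D k := by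
    by_contra hcon
    push Not at hcon
    have : finrank K D ≤ 1 := by
      refine finrank_le_one (1 : D) fun w => ?_
      obtain ⟨k, hk⟩ := hcon w
      exact ⟨k, by rw [hk, Algebra.algebraMap_eq_smul_one]⟩
    omega
  -- an element outside the field with nonzero `τ`
  obtain ⟨x, hx, hxτ⟩ : ∃ x : D, (∀ k : K, x ≠ algebraMap K D k) ∧ τ x ≠ 0 := by
    by_cases hc : ∀ k : K, x1 ≠ algebraMap K D k
    · exact ⟨x1, hc, hx1⟩
    · push Not at hc
      obtain ⟨k, hk⟩ := hc
      by_cases hyt : τ y = 0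
      · refine ⟨y + x1, fun l hl => hy (l - k) ?_, ?_⟩
        · rw [map_sub, ← hl, ← hk, add_sub_cancel_right]
        · rw [map_add, hyt, zero_add]
          exact hx1
      · exact ⟨y, hy, hyt⟩
  have deg4 : ∀ v : D, (∀ k : K, v ≠ algebraMap K D k) → (minpoly K v).natDegree = 4 := by
    intro v hv
    have a1 := minpoly.natDegree_pos (IsIntegral.of_finite K v)
    have a2 := h1 K D 4 (by norm_num) (by rw [hd]; norm_num) v
    have a3 := h2 K D v
    rw [hd] at a3
    have a4 := hx2 v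
    have a5 : (minpoly K v).natDegree ≠ 1 := by
      intro h
      rw [minpoly.natDegree_eq_one_iff] at h
      obtain ⟨k, hk⟩ := h
      exact hv k hk.symm
    generalize (minpoly K v).natDegree = n at a1 a2 a3 a4 a5
    interval_cases n
    · exact absurd rfl a5
    · exact absurd rfl a4
    · exfalso; revert a3; decide
    · rfl
  have hE4 : finrank K (trz_E K x) = 4 := A4bM_dim K D x 4 (deg4 x hx)
  -- the vector `w`
  let φ : D →ₗ[K] (trz_E K x →ₗ[K] K) :=
    { toFun := fun v => τ ∘ₗ LinearMap.mulRight K v ∘ₗ (trz_E K x).subtype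
      map_add' := by
        intro v w
        ext e
        simp [mul_add]
      map_smul' := by
        intro c v
        ext e
        simp }
  have hφ : ∀ (v : D) (e : trz_E K x), φ v e = τ ((e : D) * v) := fun v e => rfl
  have hker : LinearMap.ker φ ≠ ⊥ := by
    apply LinearMap.ker_ne_bot_of_finrank_lt
    rw [Module.finrank_linearMap, Module.finrank_self, mul_one, hE4, hd]
    norm_num
  obtain ⟨w, hw, hw0⟩ := (Submodule.ne_bot_iff _).1 hker
  have hw' : ∀ e ∈ trz_E K x, τ (e * w) = 0 := by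
    intro e he
    rw [← hφ w ⟨e, he⟩, LinearMap.mem_ker.1 hw]
    rfl
  -- the element `f`
  let ψ : trz_E K x →ₗ[K] K := τ ∘ₗ LinearMap.mulLeft K w⁻¹ ∘ₗ (trz_E K x).subtype
  have hψ : ∀ e : trz_E K x, ψ e = τ (w⁻¹ * e) := fun e => rfl
  have hker2 : LinearMap.ker ψ ≠ ⊥ := by
    apply LinearMap.ker_ne_bot_of_finrank_lt
    rw [Module.finrank_self, hE4]
    norm_num
  obtain ⟨f, hf, hf0⟩ := (Submodule.ne_bot_iff _).1 hker2
  have hfa : τ (w⁻¹ * (f : D)) = 0 := by
    rw [← hψ]
    exact LinearMap.mem_ker.1 hf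
  have hf0' : (f : D) ≠ 0 := fun h => hf0 (Subtype.ext h)
  have hfi : (f : D)⁻¹ ∈ trz_E K x := trz_inv f.2 hf0'
  have hu0 : (f : D)⁻¹ * w ≠ 0 := mul_ne_zero (inv_ne_zero hf0') hw0
  have hut : τ ((f : D)⁻¹ * w) = 0 := hw' _ hfi
  have hut' : τ ((f : D)⁻¹ * w)⁻¹ = 0 := by
    rw [mul_inv_rev, inv_inv]
    exact hfa
  have huK : ∀ k : K, (f : D)⁻¹ * w ≠ algebraMap K D k := by
    intro k hk
    have hwf : w = k • (f : D) := by
      have h3 : (f : D) * ((f : D)⁻¹ * w) = f * algebraMap K D k := by rw [hk]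
      rwa [← mul_assoc, mul_inv_cancel₀ hf0', one_mul, Algebra.algebraMap_eq_smul_one,
        mul_smul_comm, mul_one] at h3
    have hwE : w ∈ trz_E K x := by
      rw [hwf]
      exact Submodule.smul_mem _ _ f.2
    have h4 := hw' _ (trz_mul (trz_self x) (trz_inv hwE hw0))
    rw [mul_assoc, inv_mul_cancel₀ hw0, mul_one] at h4
    exact hxτ h4
  generalize (f : D)⁻¹ * w = v at hu0 hut hut' huK
  have hv4 := deg4 v huK
  obtain ⟨hm1, hm2⟩ := h5 K D v hu0
  have hc1 := (hτ v hv4).1
  rw [hut, neg_zero] at hc1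
  have hc2 := (hτ v⁻¹ (hm1.trans hv4)).1
  rw [hut', neg_zero] at hc2
  have hc3 := hm2 (by rw [hv4]; exact hc2)
  have h8 := minpoly.aeval K v
  have hm := (minpoly.monic (Algebra.IsIntegral.isIntegral (R := K) v)).coeff_natDegree
  rw [hv4] at hm
  rw [aeval_eq_sum_range, hv4] at h8
  simp only [Finset.sum_range_succ, Finset.sum_range_zero, hm, hc1, hc3, pow_zero, pow_one,
    one_smul, zero_smul, zero_add, add_zero] at h8
  -- `v ^ 2` has degree at most two
  have hsq : v ^ 4 = (v ^ 2) ^ 2 := by rw [← pow_mul]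
  obtain ⟨c0, hc0⟩ : ∃ c0 : K, c0 = (minpoly K v).coeff 0 := ⟨_, rfl⟩
  obtain ⟨c2, hc2'⟩ : ∃ c2 : K, c2 = (minpoly K v).coeff 2 := ⟨_, rfl⟩
  rw [← hc0, ← hc2', hsq] at h8
  have hnd2 : (minpoly K (v ^ 2)).natDegree ≤ 2 := by
    have hmo : (X ^ 2 + C c2 * X + C c0 : K[X]).Monic := by monicity!
    have h00 : aeval (v ^ 2) (X ^ 2 + C c2 * X + C c0 : K[X]) = 0 := by
      rw [map_add, map_add, map_mul, map_pow, aeval_X, aeval_C, aeval_C, ← Algebra.smul_def,
        Algebra.algebraMap_eq_smul_one, ← h8]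
      abel
    have h3 := natDegree_le_natDegree (minpoly.min K (v ^ 2) hmo h00)
    have h4 : (X ^ 2 + C c2 * X + C c0 : K[X]).natDegree ≤ 2 := by compute_degree
    omega
  by_cases hvk : ∀ k : K, v ^ 2 ≠ algebraMap K D k
  · have := deg4 (v ^ 2) hvk
    omega
  · push Not at hvk
    obtain ⟨k, hk⟩ := hvk
    have hmo : (X ^ 2 - C k : K[X]).Monic := monic_X_pow_sub_C k (by norm_num)
    have h00 : aeval v (X ^ 2 - C k : K[X]) = 0 := by
      rw [map_sub, map_pow, aeval_X, aeval_C, ← hk, sub_self]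
    have h3 := natDegree_le_natDegree (minpoly.min K v hmo h00)
    rw [natDegree_X_pow_sub_C] at h3
    omega

end Pool.Agent.Helper25.PX
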