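import Pool.Agent.Helper75.PX.Stmts6

set_option autoImplicit false

universe u

open Module

namespace Pool.Agent.Helper25.PX

open Pool.Agent.Helper75.PX

theorem G4b_dZ {K D : Type u} [Field K] [DivisionRing D] [Algebra K D] (α : D) (a : K)
    (haa : α * α = α + algebraMap K D a) (dd : ∀ x : D, x + x = 0) (x : D) :
    (x * α + α * x) * α = (α + 1) * (x * α + α * x) := by
  have l : (x * α + α * x) * α = x * (α * α) + α * x * α := by
    rw [add_mul, mul_assoc x α α]
  have r : (α + 1) * (x * α + α * x) = α * x * α + (α * α) * x + x * α + α * x := by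
    rw [add_mul, one_mul, mul_add, ← mul_assoc, ← mul_assoc]
    abel
  rw [l, r, haa, mul_add, add_mul, Algebra.commutes a x, ← sub_eq_zero]
  have h : x * α + x * algebraMap K D a + α * x * α -
      (α * x * α + (α * x + x * algebraMap K D a) + x * α + α * x) = -(α * x + α * x) := by
    abel
  rw [h, dd, neg_zero]

theorem st_G4b (h1 : ST_EE.{u}) (h2 : ST_MPD.{u}) (_ : ST_MDV.{u}) : ST_G4b.{u} := by
  intro K D _ _ _ _ h16 h20 α a haa hαk
  have hfd : FiniteDimensional K D := FiniteDimensional.of_finrank_pos (by omega)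
  have dd : ∀ x : D, x + x = 0 := by
    intro x
    have h : x + x = (2 : K) • x := by rw [two_smul]
    rw [h, h20, zero_smul]
  have ng : ∀ x : D, -x = x := fun x => neg_eq_of_add_eq_zero_left (dd x)
  obtain ⟨τ, e, ⟨x0, hx0⟩, hτ, he, hmp, hsq⟩ := h1 K D h16 h20
  have τZ : ∀ z : D, z * α = (α + 1) * z → τ z = 0 := by
    intro z hz
    have h := hτ z α
    rw [hz, add_mul, one_mul, map_add] at h
    exact add_eq_left.mp h
  have δZ := G4b_dZ (K := K) α a haa dd
  obtain ⟨x1, hx1⟩ : ∃ x : D, x * α + α * x ≠ 0 := by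
    by_contra hcon
    push Not at hcon
    have hc : α ∈ Subalgebra.center K D := by
      rw [Subalgebra.mem_center_iff]
      intro x
      have h := hcon x
      have h3 : x * α = -(α * x) := eq_neg_of_add_eq_zero_left h
      rw [h3, ng]
    have hb := Algebra.IsCentral.out hc
    rw [Algebra.mem_bot] at hb
    obtain ⟨k, hk⟩ := hb
    exact hαk k hk.symm
  obtain ⟨z1, hz1⟩ : ∃ z1 : D, z1 = x1 * α + α * x1 := ⟨_, rfl⟩
  have z1Z : z1 * α = (α + 1) * z1 := by rw [hz1]; exact δZ x1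
  have z10 : z1 ≠ 0 := by rw [hz1]; exact hx1
  obtain ⟨c, hc⟩ : ∃ c : D, c = x0 + (x0 * α + α * x0) := ⟨_, rfl⟩
  have τc : τ c ≠ 0 := by
    rw [hc, map_add, τZ _ (δZ x0), add_zero]; exact hx0
  have cC : c * α = α * c := by
    obtain ⟨d, hd⟩ : ∃ d : D, d = x0 * α + α * x0 := ⟨_, rfl⟩
    have hdZ : d * α = (α + 1) * d := by rw [hd]; exact δZ x0
    rw [← hd] at hc
    rw [hc, add_mul, hdZ, mul_add, add_mul, one_mul, ← sub_eq_zero]
    have h : x0 * α + (α * d + d) - (α * x0 + α * d) = x0 * α - α * x0 + d := by abel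
    rw [h, hd]
    have h3 : x0 * α - α * x0 + (x0 * α + α * x0) = x0 * α + x0 * α := by abel
    rw [h3, dd]
  have iZ : z1⁻¹ * α = (α + 1) * z1⁻¹ := by
    have h : z1 * (z1⁻¹ * α) * z1 = z1 * ((α + 1) * z1⁻¹) * z1 := by
      rw [← mul_assoc z1 z1⁻¹ α, mul_inv_cancel₀ z10, one_mul, mul_assoc z1, mul_assoc (α + 1),
        inv_mul_cancel₀ z10, mul_one, mul_add, z1Z, mul_one, add_mul, one_mul, add_assoc, dd,
        add_zero]
    exact mul_left_cancel₀ z10 (mul_right_cancel₀ z10 h)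
  obtain ⟨z2, hz2⟩ : ∃ z2 : D, z2 = z1⁻¹ * c := ⟨_, rfl⟩
  have z2Z : z2 * α = (α + 1) * z2 := by
    rw [hz2, mul_assoc, cC, ← mul_assoc, iZ, mul_assoc]
  have z12 : z1 * z2 = c := by rw [hz2, ← mul_assoc, mul_inv_cancel₀ z10, one_mul]
  obtain ⟨z, zZ, ez⟩ : ∃ z : D, z * α = (α + 1) * z ∧ e z ≠ 0 := by
    by_contra hcon
    push Not at hcon
    have h := he z1 z2
    have h3 : (z1 + z2) * α = (α + 1) * (z1 + z2) := by
      rw [add_mul, z1Z, z2Z, ← mul_add]
    rw [hcon _ h3, hcon _ z1Z, hcon _ z2Z, τZ _ z1Z, z12, zero_mul, add_zero, add_zero,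
      zero_sub] at h
    exact τc (neg_eq_zero.mp h.symm)
  have hz0 : z ≠ 0 := by
    intro h
    apply ez
    apply hsq z 0
    rw [h, mul_zero, map_zero]
  have hzz : ∀ k : K, z * z ≠ algebraMap K D k := fun k hk => ez (hsq z k hk)
  obtain ⟨y, hy⟩ : ∃ y : D, y = z * z := ⟨_, rfl⟩
  have yC : y * α = α * y := by
    rw [hy, mul_assoc, zZ, ← mul_assoc, mul_add, zZ, mul_one, add_mul α 1 z, one_mul, add_assoc,
      dd, add_zero, mul_assoc]
  have yyC : y * y * α = α * (y * y) := by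
    rw [mul_assoc, yC, ← mul_assoc, yC, mul_assoc]
  have zyZ : z * y * α = (α + 1) * (z * y) := by
    rw [mul_assoc, yC, ← mul_assoc, zZ, mul_assoc]
  have hdeg : (minpoly K z).natDegree ≤ 4 := h2 K D 4 (by norm_num) (by rw [h16]; norm_num) z
  have hint : IsIntegral K z := Algebra.IsIntegral.isIntegral z
  have hP0 : minpoly K z ≠ 0 := minpoly.ne_zero hint
  have hmon : (minpoly K z).Monic := minpoly.monic hint
  have hmpz := hmp z
  obtain ⟨P, hP⟩ : ∃ P : Polynomial K, P = minpoly K z := ⟨_, rfl⟩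
  have e1 : Polynomial.aeval z P = 0 := by rw [hP]; exact minpoly.aeval K z
  rw [← hP] at hdeg hP0 hmon hmpz
  rw [Polynomial.aeval_eq_sum_range' (n := 5) (by omega)] at e1
  simp only [Finset.sum_range_succ, Finset.sum_range_zero, zero_add, pow_zero, pow_one] at e1
  have p2 : z ^ 2 = y := by rw [hy, sq]
  have p3 : z ^ 3 = z * y := by rw [hy, pow_succ', sq]
  have p4 : z ^ 4 = y * y := by rw [hy, ← sq, ← sq, ← pow_mul]
  rw [p2, p3, p4] at e1
  -- odd part
  have odd : P.coeff 1 • z + P.coeff 3 • (z * y) = 0 := by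
    have h3 : (P.coeff 0 • (1 : D) + P.coeff 1 • z + P.coeff 2 • y + P.coeff 3 • (z * y) +
            P.coeff 4 • (y * y)) * α -
          α * (P.coeff 0 • (1 : D) + P.coeff 1 • z + P.coeff 2 • y + P.coeff 3 • (z * y) +
            P.coeff 4 • (y * y)) = 0 := by
      rw [e1, zero_mul, mul_zero, sub_zero]
    simp only [add_mul, mul_add, smul_mul_assoc, mul_smul_comm, one_mul, mul_one, zZ, yC, yyC,
      zyZ] at h3
    rw [← h3]
    module
  have odd2 : P.coeff 1 • (1 : D) + P.coeff 3 • y = 0 := by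
    have h3 : z * (P.coeff 1 • (1 : D) + P.coeff 3 • y) = 0 := by
      rw [mul_add, mul_smul_comm, mul_smul_comm, mul_one]; exact odd
    exact (mul_eq_zero.mp h3).resolve_left hz0
  have hyk : ∀ k : K, y ≠ k • (1 : D) := by
    intro k hk
    apply hzz k
    rw [← hy, hk, Algebra.algebraMap_eq_smul_one]
  have c3 : P.coeff 3 = 0 := by
    by_contra hc
    apply hyk (-(P.coeff 3)⁻¹ * P.coeff 1)
    have h4 : (P.coeff 3)⁻¹ • (P.coeff 1 • (1 : D) + P.coeff 3 • y) = 0 := by
      rw [odd2, smul_zero]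
    rw [smul_add, smul_smul, smul_smul, inv_mul_cancel₀ hc, one_smul] at h4
    rw [neg_mul, neg_smul]
    exact eq_neg_of_add_eq_zero_right h4
  have c1 : P.coeff 1 = 0 := by
    rw [c3, zero_smul, add_zero] at odd2
    exact (smul_eq_zero.mp odd2).resolve_right one_ne_zero
  rw [c3, c1, zero_smul, zero_smul, add_zero, add_zero] at e1
  have c4 : P.coeff 4 ≠ 0 := by
    intro c4
    rw [c4, zero_smul, add_zero] at e1
    have c2 : P.coeff 2 = 0 := by
      by_contra hc
      apply hyk (-(P.coeff 2)⁻¹ * P.coeff 0)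
      have h4 : (P.coeff 2)⁻¹ • (P.coeff 0 • (1 : D) + P.coeff 2 • y) = 0 := by
        rw [e1, smul_zero]
      rw [smul_add, smul_smul, smul_smul, inv_mul_cancel₀ hc, one_smul] at h4
      rw [neg_mul, neg_smul]
      exact eq_neg_of_add_eq_zero_right h4
    rw [c2, zero_smul, add_zero] at e1
    have c0 : P.coeff 0 = 0 := (smul_eq_zero.mp e1).resolve_right one_ne_zero
    apply hP0
    ext n
    rw [Polynomial.coeff_zero]
    by_cases hn : n ≤ 4
    · interval_cases n
      · exact c0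
      · exact c1
      · exact c2
      · exact c3
      · exact c4
    · exact Polynomial.coeff_eq_zero_of_natDegree_lt (by omega)
  have hnd : P.natDegree = 4 := le_antisymm hdeg (Polynomial.le_natDegree_of_ne_zero c4)
  have c41 : P.coeff 4 = 1 := by
    have h := hmon.coeff_natDegree
    rwa [hnd] at h
  obtain ⟨s, hs⟩ : ∃ s : K, s = P.coeff 2 := ⟨_, rfl⟩
  obtain ⟨m, hm⟩ : ∃ m : K, m = P.coeff 0 := ⟨_, rfl⟩
  have s0 : s ≠ 0 := by rw [hs, (hmpz hnd).2]; exact ez
  rw [c41, one_smul, ← hs, ← hm] at e1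
  refine ⟨z, s⁻¹ • y, s⁻¹ * s⁻¹ * m, s, hz0, zZ, ?_, ?_, ?_, ?_, ?_, s0⟩
  · rw [mul_smul_comm, smul_mul_assoc, hy, mul_assoc]
  · rw [mul_smul_comm, smul_mul_assoc, yC]
  · have yy : y * y = -(m • (1 : D) + s • y) := eq_neg_of_add_eq_zero_right e1
    rw [smul_mul_smul_comm, yy, ng, smul_add, smul_smul, smul_smul, mul_assoc s⁻¹ s⁻¹ s,
      inv_mul_cancel₀ s0, mul_one, Algebra.algebraMap_eq_smul_one, add_comm]
  · intro k hk
    apply hyk (s * k)
    have h4 : s • (s⁻¹ • y) = y := by rw [smul_smul, mul_inv_cancel₀ s0, one_smul]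
    rw [← h4, hk, Algebra.algebraMap_eq_smul_one, smul_smul]
  · rw [smul_smul, mul_inv_cancel₀ s0, one_smul, hy]

end Pool.Agent.Helper25.PX
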