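import Pool.Agent.Helper25.PX.A4bM

/-! The part of row A4b on elements of degree two. -/

set_option autoImplicit false

universe u

open Module Polynomial

namespace Pool.Agent.Helper25.PX

open Pool.Agent.Helper75.PX

theorem lp_q0 {K D : Type u} [Field K] [DivisionRing D] [Algebra K D] [FiniteDimensional K D]
    (dd : ∀ x : D, x + x = 0) (t : D) (h : (minpoly K t).natDegree = 2) :
    ∃ s n : K, t * t = s • t + algebraMap K D n := by
  have ng : ∀ x : D, -x = x := fun x => neg_eq_of_add_eq_zero_left (dd x)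
  have h8 := minpoly.aeval K t
  have hm := (minpoly.monic (Algebra.IsIntegral.isIntegral (R := K) t)).coeff_natDegree
  rw [h] at hm
  rw [aeval_eq_sum_range, h] at h8
  simp only [Finset.sum_range_succ, Finset.sum_range_zero, hm, pow_zero, pow_one,
    one_smul, zero_add] at h8
  refine ⟨(minpoly K t).coeff 1, (minpoly K t).coeff 0, ?_⟩
  have h9 : t ^ 2 = -((minpoly K t).coeff 0 • (1 : D) + (minpoly K t).coeff 1 • t) :=
    eq_neg_of_add_eq_zero_right h8
  rw [ng] at h9
  rw [← sq, h9, Algebra.algebraMap_eq_smul_one, add_comm]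

theorem lp_q1 {K D : Type u} [Field K] [DivisionRing D] [Algebra K D]
    (t : D) (s n : K) (hs : s ≠ 0)
    (ht : t * t = s • t + algebraMap K D n) (htK : ∀ k : K, t ≠ algebraMap K D k) :
    ∃ (α : D) (a : K), α * α = α + algebraMap K D a ∧ ∀ k : K, α ≠ algebraMap K D k := by
  refine ⟨s⁻¹ • t, s⁻¹ * s⁻¹ * n, ?_, ?_⟩
  · rw [smul_mul_smul_comm, ht, smul_add, smul_smul, mul_assoc, inv_mul_cancel₀ hs, mul_one,
      Algebra.algebraMap_eq_smul_one, Algebra.algebraMap_eq_smul_one, smul_smul]
  · intro k hk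
    apply htK (s * k)
    have h4 : s • (s⁻¹ • t) = t := by rw [smul_smul, mul_inv_cancel₀ hs, one_smul]
    rw [← h4, hk, Algebra.algebraMap_eq_smul_one, Algebra.algebraMap_eq_smul_one, smul_smul]

/-- an element `y` with `v y = (y + 1) v` -/
theorem lp_y {K D : Type u} [Field K] [DivisionRing D] [Algebra K D] [Algebra.IsCentral K D]
    (dd : ∀ x : D, x + x = 0) (v : D) (m : K) (hvv : v * v = algebraMap K D m)
    (hvK : ∀ k : K, v ≠ algebraMap K D k) : ∃ y : D, v * y = (y + 1) * v := by
  have ng : ∀ x : D, -x = x := fun x => neg_eq_of_add_eq_zero_left (dd x)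
  obtain ⟨x0, hx0⟩ : ∃ x : D, v * x + x * v ≠ 0 := by
    by_contra hcon
    push Not at hcon
    have hc : v ∈ Subalgebra.center K D := by
      rw [Subalgebra.mem_center_iff]
      intro x
      have h3 : v * x = -(x * v) := eq_neg_of_add_eq_zero_left (hcon x)
      rw [h3, ng]
    have hb := Algebra.IsCentral.out hc
    rw [Algebra.mem_bot] at hb
    obtain ⟨k, hk⟩ := hb
    exact hvK k hk.symm
  obtain ⟨g, hg⟩ : ∃ g : D, g = v * x0 + x0 * v := ⟨_, rfl⟩
  have g0 : g ≠ 0 := by rw [hg]; exact hx0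
  have gv : Commute g v := by
    show g * v = v * g
    rw [hg, add_mul, mul_add, mul_assoc x0 v v, ← mul_assoc v v x0, hvv, Algebra.commutes m x0,
      mul_assoc v x0 v, add_comm]
  have gi : g⁻¹ * v = v * g⁻¹ := Commute.inv_left₀ gv
  refine ⟨x0 * g⁻¹ * v, ?_⟩
  have h : v * (x0 * g⁻¹ * v) + x0 * g⁻¹ * v * v = v := by
    have h3 : v * (x0 * g⁻¹ * v) + x0 * g⁻¹ * v * v = (v * x0 + x0 * v) * g⁻¹ * v := by
      have h31 : x0 * g⁻¹ * v * v = x0 * v * g⁻¹ * v := by
        rw [mul_assoc x0 g⁻¹ v, gi, ← mul_assoc x0 v g⁻¹]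
      rw [add_mul, add_mul, h31]
      simp only [mul_assoc]
    rw [h3, ← hg, mul_inv_cancel₀ g0, one_mul]
  rw [add_mul, one_mul]
  have h5 : v * (x0 * g⁻¹ * v) = v - x0 * g⁻¹ * v * v := eq_sub_of_add_eq h
  rw [h5, sub_eq_add_neg, ng, add_comm]

theorem lp_P (h1 : ST_MPD.{u}) (h2 : ST_MDV.{u}) (K D : Type u) [Field K] [DivisionRing D]
    [Algebra K D] [Algebra.IsCentral K D] (hd : finrank K D = 16) (h20 : (2 : K) = 0)
    (v : D) (m : K) (hvv : v * v = algebraMap K D m) (hvK : ∀ k : K, v ≠ algebraMap K D k) :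
    ∃ (α : D) (a : K), α * α = α + algebraMap K D a ∧ ∀ k : K, α ≠ algebraMap K D k := by
  have : FiniteDimensional K D := Module.finite_of_finrank_pos (by rw [hd]; norm_num)
  have dd : ∀ x : D, x + x = 0 := by
    intro x
    have h : x + x = (2 : K) • x := by rw [two_smul]
    rw [h, h20, zero_smul]
  have ng : ∀ x : D, -x = x := fun x => neg_eq_of_add_eq_zero_left (dd x)
  have v0 : v ≠ 0 := fun h => hvK 0 (by rw [h, map_zero])
  obtain ⟨y, hy⟩ := lp_y dd v m hvv hvK
  -- no element with `v x = (x + 1) v` is central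
  have hno : ∀ x : D, v * x = (x + 1) * v → v * x ≠ x * v := by
    intro x hx hc
    rw [hx, add_mul, one_mul] at hc
    exact v0 (add_eq_left.mp hc)
  have hnoK : ∀ x : D, v * x = (x + 1) * v → ∀ k : K, x ≠ algebraMap K D k := by
    intro x hx k hk
    apply hno x hx
    rw [hk, Algebra.commutes]
  obtain ⟨t, ht⟩ : ∃ t : D, t = y * y + y := ⟨_, rfl⟩
  have vyy : v * (y * y) = (y * y + 1) * v := by
    rw [← mul_assoc, hy, mul_assoc, hy, ← mul_assoc]
    congr 1
    rw [← sub_eq_zero]
    have h : (y + 1) * (y + 1) - (y * y + 1) = y + y := by noncomm_ring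
    rw [h, dd]
  have vt : v * t = t * v := by
    rw [ht, mul_add, vyy, hy, ← add_mul]
    congr 1
    rw [← sub_eq_zero]
    have h : y * y + 1 + (y + 1) - (y * y + y) = (1 : D) + 1 := by abel
    rw [h, dd]
  by_cases htK : ∃ k : K, t = algebraMap K D k
  · obtain ⟨k, hk⟩ := htK
    refine ⟨y, k, ?_, hnoK y hy⟩
    rw [← hk, ht, add_comm (y * y) y, ← add_assoc, dd, zero_add]
  push Not at htK
  have htdeg : (minpoly K t).natDegree = 2 := by
    have a1 := minpoly.natDegree_pos (IsIntegral.of_finite K t)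
    have a2 := h1 K D 4 (by norm_num) (by rw [hd]; norm_num) t
    have a3 := h2 K D t
    rw [hd] at a3
    have a5 : (minpoly K t).natDegree ≠ 1 := by
      intro h
      rw [minpoly.natDegree_eq_one_iff] at h
      obtain ⟨k, hk⟩ := h
      exact htK k hk.symm
    have a6 : (minpoly K t).natDegree ≠ 4 := by
      intro h4
      have b1 : finrank K (trz_E K t) = 4 := A4bM_dim K D t 4 h4
      have b2 : finrank K (trz_E K y) ≤ 4 :=
        (trz_finrank y).trans (h1 K D 4 (by norm_num) (by rw [hd]; norm_num) y)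
      have b3 : trz_E K t ≤ trz_E K y := by
        rintro _ ⟨p, rfl⟩
        refine ⟨p.comp (X * X + X), ?_⟩
        have h7 : aeval y (p.comp (X * X + X)) = aeval t p := by
          rw [aeval_comp, map_add, map_mul, aeval_X, ht]
        exact h7
      have b4 : trz_E K t = trz_E K y := Submodule.eq_of_le_of_finrank_le b3 (by omega)
      have b5 : y ∈ trz_E K t := by rw [b4]; exact trz_self y
      obtain ⟨p, hp⟩ := b5
      apply hno y hy
      have hp' : aeval t p = y := hp
      rw [← hp']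
      have h9 : ∀ q : K[X], v * aeval t q = aeval t q * v := by
        intro q
        induction q using Polynomial.induction_on' with
        | add a b ha hb => rw [map_add, mul_add, add_mul, ha, hb]
        | monomial n c =>
          rw [aeval_monomial]
          have hcm : Commute v (t ^ n) := Commute.pow_right vt n
          rw [← mul_assoc, ← Algebra.commutes c v, mul_assoc, hcm.eq, mul_assoc]
      exact h9 p
    generalize (minpoly K t).natDegree = n at a1 a2 a3 a5 a6
    interval_cases n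
    · exact absurd rfl a5
    · rfl
    · exfalso; revert a3; decide
    · exact absurd rfl a6
  obtain ⟨s, n, hsn⟩ := lp_q0 (K := K) dd t htdeg
  by_cases hs : s = 0
  · refine ⟨y * y, n, ?_, ?_⟩
    · rw [hs, zero_smul, zero_add] at hsn
      rw [← hsn, ht, ← sub_eq_zero]
      have h : y * y * (y * y) - (y * y + (y * y + y) * (y * y + y)) =
          -(y * y + y * y) - (y * y * y + y * y * y) := by noncomm_ring
      rw [h, dd, dd, neg_zero, sub_zero]
    · exact hnoK _ vyy
  · exact lp_q1 t s n hs hsn htK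

theorem lemQ (h1 : ST_MPD.{u}) (h2 : ST_MDV.{u}) : A4bQ.{u} := by
  intro K D _ _ _ _ hd h20 v hvK hv2
  have : FiniteDimensional K D := Module.finite_of_finrank_pos (by rw [hd]; norm_num)
  have dd : ∀ x : D, x + x = 0 := by
    intro x
    have h : x + x = (2 : K) • x := by rw [two_smul]
    rw [h, h20, zero_smul]
  obtain ⟨s, n, hsn⟩ := lp_q0 (K := K) dd v hv2
  by_cases hs : s = 0
  · rw [hs, zero_smul, zero_add] at hsn
    exact lp_P h1 h2 K D hd h20 v n hsn hvK
  · exact lp_q1 v s n hs hsn hvK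

/-- row A4b -/
theorem st_A4b (h0 : ST_EE.{u}) (h1 : ST_MPD.{u}) (h2 : ST_MDV.{u}) (h5 : ST_MIN.{u}) :
    ST_A4b.{u} :=
  A4b_main h0 h1 h2 h5 (lemQ h1 h2)

end Pool.Agent.Helper25.PX
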